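import Pool.Agent.H71.CR.Stmt

/-!
# STX: the situation at the end exists
-/

set_option autoImplicit false

open Set Pool.Agent.TK Pool.Agent.H71.VK

namespace Pool.Agent.CR

open Classical in
/-- STX -/
theorem pf_STX (hREP : T_REP) (hBTX : T_BTX) : T_STX := by
  intro n c Sm G π B hB
  obtain ⟨S, hS⟩ := hBTX n c Sm G π B hB
  obtain ⟨F, hF1, hF2⟩ := hREP n c G.lb S n.2 (fun e => G.Eg π B e ∧ G.In B S e)
  refine ⟨S, S.filter (fun a => decide (a ∈ st c π)), F, hS, fun a => ?_, hF1, ?_⟩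
  · rw [List.mem_filter, decide_eq_true_iff]
  · intro e h1 h2
    exact hF2 e h1.ln ⟨h1, h2⟩

end Pool.Agent.CR
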