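import Pool.Agent.H71.CR.Stmt

/-!
# TIA: a free tuple is type independent
-/

set_option autoImplicit false

open Set Pool.Agent.TK Pool.Agent.H71.VK

namespace Pool.Agent.CR

/-- the pairs of `u.zip u` -/
private lemma tia_zself {u : List ℕ} {z : ℕ × ℕ} (hz : z ∈ u.zip u) : z.1 = z.2 ∧ z.1 ∈ u := by
  obtain ⟨i, hx, hy, rfl⟩ := zip_get hz
  exact ⟨rfl, List.getElem_mem hx⟩

private lemma tia_left {c : Lf} {B u v v' : List ℕ} (h : Pl c c (dg (u ++ B) ++ v.zip v')) :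
    Pl c c (dg B ++ (u ++ v).zip (u ++ v')) := by
  refine h.mono fun z hz => ?_
  rw [List.zip_append rfl] at hz
  simp only [List.mem_append, mem_dg] at hz ⊢
  rcases hz with hz | hz | hz
  · exact Or.inl ⟨hz.1, Or.inr hz.2⟩
  · have h1 := tia_zself hz
    exact Or.inl ⟨h1.1, Or.inl h1.2⟩
  · exact Or.inr hz

private lemma tia_right {c : Lf} {B X u u' v : List ℕ} (hBX : B ⊆ X) (hl : u.length = u'.length)
    (h : Pl c c (dg (v ++ X) ++ u.zip u')) :
    Pl c c (dg B ++ (u ++ v).zip (u' ++ v)) := by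
  refine h.mono fun z hz => ?_
  rw [List.zip_append hl] at hz
  simp only [List.mem_append, mem_dg] at hz ⊢
  rcases hz with hz | hz | hz
  · exact Or.inl ⟨hz.1, Or.inr (hBX hz.2)⟩
  · exact Or.inr hz
  · have h1 := tia_zself hz
    exact Or.inl ⟨h1.1, Or.inl h1.2⟩

private lemma tia_base {c : Lf} {B X x y : List ℕ} (hBX : B ⊆ X)
    (h : Pl c c (dg X ++ x.zip y)) : Pl c c (dg B ++ x.zip y) := by
  refine h.mono fun z hz => ?_
  simp only [List.mem_append, mem_dg] at hz ⊢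
  rcases hz with hz | hz
  · exact Or.inl ⟨hz.1, hBX hz.2⟩
  · exact Or.inr hz

/-- TIA -/
theorem pf_TIA (hCOP : T_COP) (hMBI : T_MBI) (hFAR : T_FAR) (hFRM : T_FRM) : T_TIA := by
  intro n c Sm G π B hB u v hlen hu hv
  obtain ⟨X, hBX, huX⟩ := hu
  obtain ⟨F1, F2, -, -⟩ := hFRM n c Sm G π B hB
  have hlu : u.length ≤ n.2 := by omega
  have hlv : v.length ≤ n.2 := by omega
  obtain ⟨u0, hu0, lu0, pu0⟩ := F2 X B (fun a ha => ha) hBX u hlu huX
  obtain ⟨v1, hv1, lv1, pv1⟩ := hv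
  have hBuB : B ⊆ u ++ B := fun a ha => List.mem_append_right _ ha
  obtain ⟨v0, hv0, lv0, pv0⟩ := F2 (u ++ B) B (fun a ha => ha) hBuB v1 (by omega) hv1
  obtain ⟨u1, lu1, pu1, hu1B, -, hu1⟩ := hFAR n c Sm G π B hB.dlB u0 hu0 X
  have hu1X : G.Mb π X u1 := hu1 X hBX fun a ha => List.mem_append_left _ ha
  obtain ⟨w0, lw0, pw0, -, -, hw0⟩ := hFAR n c Sm G π B hB.dlB v0 hv0 X
  have hw0X : G.Mb π X w0 := hw0 X hBX fun a ha => List.mem_append_left _ ha
  obtain ⟨p, -, -, -, hpT, hpP, hpM⟩ := hCOP n c Sm G π X (fun a ha => hBX (hB.dlB ha)) w0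
    (G.sup (u ++ X) ∪ G.sup (u1 ++ X))
  obtain ⟨v2, hv2⟩ : ∃ v2, v2 = w0.map p.1 := ⟨_, rfl⟩
  rw [← hv2] at hpT hpP hpM
  have lv2 : w0.length = v2.length := by rw [hv2, List.length_map]
  have hv2X : G.Mb π X v2 := hpM hw0X
  have i1 : G.In X v2 u := by
    intro j hj hj'
    by_contra h
    exact hpT j hj h (Finset.mem_union_left _ hj')
  have i2 : G.In X v2 u1 := by
    intro j hj hj'
    by_contra h
    exact hpT j hj h (Finset.mem_union_right _ hj')
  have m1 : G.Mb π (v2 ++ X) u := hMBI n c Sm G π X v2 u huX i1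
  have m2 : G.Mb π (v2 ++ X) u1 := hMBI n c Sm G π X v2 u1 hu1X i2
  have m3 : G.Mb π (u ++ X) v2 := hMBI n c Sm G π X u v2 hv2X fun j hj hj' => i1 j hj' hj
  have m4 : G.Mb π (u1 ++ X) v2 := hMBI n c Sm G π X u1 v2 hv2X fun j hj hj' => i2 j hj' hj
  -- step (b)
  have sub : ∀ w : List ℕ, w ++ B ⊆ w ++ X := by
    intro w a ha
    rcases List.mem_append.1 ha with h | h
    · exact List.mem_append_left _ h
    · exact List.mem_append_right _ (hBX h)
  have e12 : Pl c c (dg B ++ v1.zip v2) :=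
    (pv0.zip_trans lv0 pw0).zip_trans (lv0.trans lw0) (tia_base hBX hpP)
  have b1 : Pl c c (dg (u ++ B) ++ v1.zip v2) := by
    refine F1 (u ++ B) hBuB v1 v2 (by omega) ?_ ?_ e12
    · exact F2 (u ++ B) (u ++ B) hBuB (fun a ha => ha) v1 (by omega) hv1
    · exact F2 (u ++ X) (u ++ B) hBuB (sub u) v2 (by omega) m3
  -- step (c)
  have c1 : Pl c c (dg (v2 ++ X) ++ u.zip u1) := by
    refine hB.uq (v2 ++ X) (fun a ha => List.mem_append_right _ (hBX ha)) u u1 (by omega) m1 m2 ?_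
    exact pu0.zip_trans lu0 pu1
  -- step (d)
  obtain ⟨v3, lv3, pv3, hv3B, hIn, hv3⟩ := hFAR n c Sm G π B hB.dlB v0 hv0 u1
  have hBu1B : B ⊆ u1 ++ B := fun a ha => List.mem_append_right _ ha
  have m5 : G.Mb π (u1 ++ B) v3 := hv3 (u1 ++ B) hBu1B fun a ha => ha
  have e23 : Pl c c (dg B ++ v2.zip v3) := by
    have h1 : Pl c c (dg B ++ v0.zip v2) := pw0.zip_trans lw0 (tia_base hBX hpP)
    exact h1.zip_symm.zip_trans (by omega) pv3
  have d1 : Pl c c (dg (u1 ++ B) ++ v2.zip v3) := by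
    refine F1 (u1 ++ B) hBu1B v2 v3 (by omega) ?_ ?_ e23
    · exact F2 (u1 ++ X) (u1 ++ B) hBu1B (sub u1) v2 (by omega) m4
    · exact F2 (u1 ++ B) (u1 ++ B) hBu1B (fun a ha => ha) v3 (by omega) m5
  -- composition
  refine ⟨u1, v3, hu1B, hv3B, hIn, by omega, by omega, ?_⟩
  have q1 := tia_left pv1
  have q2 := tia_left b1
  have q3 := tia_right (v := v2) hBX (by omega : u.length = u1.length) c1
  have q4 := tia_left d1
  have r1 := q1.zip_trans (by simp only [List.length_append]; omega) q2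
  have r2 := r1.zip_trans (by simp only [List.length_append]; omega) q3
  exact r2.zip_trans (by simp only [List.length_append]; omega) q4

end Pool.Agent.CR
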